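import Pool.Agent.Helper82_Enum.Defs
import Pool.Agent.Helper82_Enum.Total2

/-!
Every almost total enumeration degree is graph-cototal.

Here the degree of `A` is almost total if for every set `B` of total enumeration degree either
`B` is enumeration reducible to `A` or the join of `A` and `B` has total degree, and it is
graph-cototal if it contains the complement of the graph of some `f : ℕ → ℕ`.
-/

namespace Pool.Agent.Results.MP_c7b1db_lc.AlmostTotalGraphCototal

/-- **Every almost total enumeration degree is graph-cototal.** -/
theorem result (A : Set ℕ) (hA : Helper82Enum.AlmostTotal A) : Helper82Enum.GraphCototal A :=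
  Helper82Enum.graphCototal_of_almostTotal hA

end Pool.Agent.Results.MP_c7b1db_lc.AlmostTotalGraphCototal
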